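import Pool.Agent.Y345.AC.Main

set_option autoImplicit false

/-!
Additive cubes over finite subsets of abelian groups without elements of order two:
complete answer.
-/

namespace Pool.Agent.Results.MP_c93f48_co.OddTorsionGroups

/-- Let `M` be an abelian group without elements of order two and `A` a finite subset of `M`.
There is an infinite word over `A` without additive cubes if and only if `A` has at least three
elements and the differences of elements of `A` generate an infinite subgroup of `M`. -/
theorem result.{u} :
    ∀ (M : Type u) [AddCommGroup M], (∀ x : M, x + x = 0 → x = 0) → ∀ A : Finset M,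
      ((∃ w : ℕ → M, (∀ n, w n ∈ A) ∧
        ∀ p L : ℕ, 0 < L →
          ¬ ((∑ k ∈ Finset.range L, w (p + k)) = (∑ k ∈ Finset.range L, w (p + L + k)) ∧
             (∑ k ∈ Finset.range L, w (p + L + k)) =
               (∑ k ∈ Finset.range L, w (p + 2 * L + k)))) ↔
        (3 ≤ A.card ∧
          ((AddSubgroup.closure {d : M | ∃ x ∈ A, ∃ y ∈ A, d = x - y} :
            AddSubgroup M) : Set M).Infinite)) := by
  intro M _ hM A
  exact Pool.Agent.Y345.AC.main (fun x hx => hM x (by rwa [two_nsmul] at hx)) A

end Pool.Agent.Results.MP_c93f48_co.OddTorsionGroups
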